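import Pool.Agent.W898.VR.Fin

/-!
# Hereditary structural completeness of the structural completion of `S_A` is undecidable

`num` is a bijective Goedel numbering of the formulas; every system `S_A` has a unique structural
completion; and the set of (numbers of) formulas `A` such that the structural completion of `S_A` is
hereditarily structurally complete is not computable.
-/

set_option autoImplicit false

namespace Pool.Agent.Results.MP_3c2488_lc.Undecidable

open Pool.Agent.W898.VR

theorem result : Function.Bijective num ∧ (∀ A : Form, ∃! c, Compl (Cn A) c) ∧
    ¬ ComputablePred (fun k : ℕ => ∃ A : Form, num A = k ∧ ∃ c, Compl (Cn A) c ∧ HStrC c) :=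
  ⟨num_bij, exists_unique_compl, hsc_undecidable⟩

end Pool.Agent.Results.MP_3c2488_lc.Undecidable
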